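import Pool.Agent.Helper72.BA.Defs

/-!
# Beurling–Ahlfors powers, module FB1: Fourier basics (MP_3dd6d4_an)
-/

set_option autoImplicit false

open MeasureTheory Complex FourierTransform Filter Topology
open scoped ENNReal NNReal ComplexConjugate

noncomputable section

namespace Helper72.BA.P

open Helper72.BA

private theorem ker_int {K : ℂ → ℂ} (hK : Ker K) : Integrable K := by
  obtain ⟨s, rfl⟩ := hK
  exact s.integrable

private theorem ker_cont {K : ℂ → ℂ} (hK : Ker K) : Continuous K := by
  obtain ⟨s, rfl⟩ := hK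
  exact s.continuous

private theorem ker_bdd {K : ℂ → ℂ} (hK : Ker K) : ∃ C : ℝ, ∀ z, ‖K z‖ ≤ C := by
  obtain ⟨s, rfl⟩ := hK
  obtain ⟨C, hC⟩ := s.decay 0 0
  exact ⟨C, fun z => by simpa using hC.2 z⟩

private theorem cv_eq (K f : ℂ → ℂ) : cv K f = convolution K f (ContinuousLinearMap.mul ℂ ℂ) volume := by
  funext z
  rw [convolution_eq_swap]
  simp [cv]

private theorem integrable_integrand {K f : ℂ → ℂ} (hK : Ker K) (hf : Nice f) (z : ℂ) :
    Integrable (fun w => K (z - w) * f w) := by
  obtain ⟨C, hC⟩ := ker_bdd hK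
  refine hf.int.bdd_mul (c := C) ?_ ?_
  · exact ((ker_cont hK).comp (by fun_prop)).aestronglyMeasurable
  · exact ae_of_all _ fun w => hC _

theorem continuous_cv {K f : ℂ → ℂ} (hK : Ker K) (hf : Nice f) : Continuous (cv K f) := by
  obtain ⟨C, hC⟩ := ker_bdd hK
  refine continuous_of_dominated (bound := fun w => C * ‖f w‖) ?_ ?_ ?_ ?_
  · intro z
    exact (integrable_integrand hK hf z).aestronglyMeasurable
  · intro z
    refine ae_of_all _ fun w => ?_
    rw [norm_mul]
    exact mul_le_mul_of_nonneg_right (hC _) (norm_nonneg _)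
  · exact hf.int.norm.const_mul C
  · refine ae_of_all _ fun w => ?_
    exact ((ker_cont hK).comp (by fun_prop)).mul continuous_const

theorem nice_cv {K f : ℂ → ℂ} (hK : Ker K) (hf : Nice f) : Nice (cv K f) := by
  obtain ⟨C, hC⟩ := ker_bdd hK
  refine ⟨(continuous_cv hK hf).measurable, ?_, C * ∫ w, ‖f w‖, ?_⟩
  · rw [cv_eq]
    exact (ker_int hK).integrable_convolution _ hf.int
  · intro z
    refine (norm_integral_le_integral_norm _).trans ?_
    rw [← integral_const_mul]
    refine integral_mono (integrable_integrand hK hf z).norm (hf.int.norm.const_mul C) ?_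
    intro w
    simp only [norm_mul]
    exact mul_le_mul_of_nonneg_right (hC _) (norm_nonneg _)

theorem cv_add {K f g : ℂ → ℂ} (hK : Ker K) (hf : Nice f) (hg : Nice g) :
    cv K (f + g) = cv K f + cv K g := by
  funext z
  simp only [cv, Pi.add_apply, mul_add]
  exact integral_add (integrable_integrand hK hf z) (integrable_integrand hK hg z)

theorem cv_smul {K f : ℂ → ℂ} (c : ℂ) : cv K (c • f) = c • cv K f := by
  funext z
  simp only [cv, Pi.smul_apply, smul_eq_mul]
  rw [← integral_const_mul]
  congr 1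
  funext w
  ring

theorem fourier_cv {K f : ℂ → ℂ} (hK : Ker K) (hf : Nice f) (ξ : ℂ) :
    𝓕 (cv K f) ξ = 𝓕 K ξ * 𝓕 f ξ := by
  rw [cv_eq]
  exact Real.fourier_mul_convolution_eq (ker_int hK) hf.int ξ

theorem cv_inner {K f g : ℂ → ℂ} (hK : Ker K) (hf : Nice f) (hg : Nice g) :
    ∫ z, cv K f z * conj (g z) = ∫ z, f z * conj (cv (fun u => conj (K (-u))) g z) := by
  have h1 : ∀ z, cv K f z * conj (g z) = ∫ w, K (z - w) * f w * conj (g z) := by
    intro z
    rw [cv, ← integral_mul_const]
  have h2 : ∀ w, f w * conj (cv (fun u => conj (K (-u))) g w) =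
      ∫ z, K (z - w) * f w * conj (g z) := by
    intro w
    rw [cv, ← integral_conj, ← integral_const_mul]
    congr 1
    funext z
    simp only [map_mul, Complex.conj_conj, neg_sub]
    ring
  simp only [h1, h2]
  rw [integral_integral_swap]
  obtain ⟨C, hC⟩ := ker_bdd hK
  have hgf : Integrable (fun p : ℂ × ℂ => conj (g p.1) * f p.2) (volume.prod volume) := by
    have hg' : Integrable (fun z => conj (g z)) := by
      refine hg.int.norm.mono' ?_ ?_
      · exact (Complex.continuous_conj.measurable.comp hg.meas).aestronglyMeasurable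
      · exact ae_of_all _ fun z => by simp
    exact hg'.mul_prod hf.int
  have h3 : Integrable (fun p : ℂ × ℂ => K (p.1 - p.2) * (conj (g p.1) * f p.2))
      (volume.prod volume) := by
    refine hgf.bdd_mul (c := C) ?_ ?_
    · exact ((ker_cont hK).comp (by fun_prop)).aestronglyMeasurable
    · exact ae_of_all _ fun w => hC _
  refine h3.congr (ae_of_all _ fun p => ?_)
  simp only [Function.uncurry]
  ring

theorem integrable_fourier_cv {K f : ℂ → ℂ} (hK : Ker K) (hf : Nice f) :
    Integrable (𝓕 (cv K f)) := by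
  have h : 𝓕 (cv K f) = fun ξ => 𝓕 K ξ * 𝓕 f ξ := by
    funext ξ
    exact fourier_cv hK hf ξ
  rw [h]
  have hKF : Integrable (𝓕 K) := by
    obtain ⟨s, rfl⟩ := hK
    rw [← SchwartzMap.fourier_coe]
    exact (𝓕 s).integrable
  refine hKF.mul_bdd (c := ∫ w, ‖f w‖) ?_ ?_
  · exact (VectorFourier.fourierIntegral_continuous Real.continuous_fourierChar
      (by exact continuous_inner) hf.int).aestronglyMeasurable
  · refine ae_of_all _ fun ξ => ?_
    exact VectorFourier.norm_fourierIntegral_le_integral_norm _ _ _ _ _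

end Helper72.BA.P
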