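import Mathlib

/-! Definitions for the statement on graphs with few frustrated k-cycles (MP_9feecb_co). -/

namespace Frust

/-- `frustCount k G` is the number of injective sequences `v 0, ..., v (k-1)` of vertices for
which the number of indices `i` such that `v i` and its cyclic successor are adjacent is odd.
It is the number of frustrated `k`-cycles, counted as ordered sequences. -/
noncomputable def frustCount (k : ℕ) {V : Type} (G : SimpleGraph V) : ℕ :=
  Nat.card {v : Fin k ↪ V //
    Odd (Nat.card {i : Fin k // G.Adj (v i) (v (finRotate k i))})}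

/-- The `s`-star on `n` vertices: vertex `0` is joined to `1, ..., s`, there is no other edge
(used for `s < n`). -/
def star (n s : ℕ) : SimpleGraph (Fin n) where
  Adj a b := (a.val = 0 ∧ 1 ≤ b.val ∧ b.val ≤ s) ∨ (b.val = 0 ∧ 1 ≤ a.val ∧ a.val ≤ s)
  symm := ⟨fun a b h => h.symm⟩
  loopless := ⟨fun a h => by omega⟩

/-- The complete bipartite graph between `A` and its complement (either may be empty). -/
def completeBip {V : Type} (A : Set V) : SimpleGraph V where
  Adj x y := ¬ (x ∈ A ↔ y ∈ A)
  symm := ⟨fun x y h h' => h h'.symm⟩
  loopless := ⟨fun x h => h Iff.rfl⟩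

/-- `WithinFlips t G H`: the graphs `G` and `H` differ in the adjacency of at most `t` pairs. -/
def WithinFlips (t : ℕ) {V : Type} (G H : SimpleGraph V) : Prop :=
  (symmDiff G.edgeSet H.edgeSet).ncard ≤ t

end Frust
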