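import Pool.Agent.Helper55.TM.Basic

/-!
# MP_fc8395_an : the abstract link bound (module LA)
-/

set_option autoImplicit false

open scoped ContDiff Topology
open Filter Set

namespace TM

lemma LA_diff_fderiv {f : ℝ × ℝ → ℝ} {q : ℝ × ℝ} (hf : ContDiffAt ℝ 3 f q) (u : ℝ × ℝ) :
    DifferentiableAt ℝ (fun q' => fderiv ℝ f q' u) q := by
  have h : ContDiffAt ℝ 2 (fderiv ℝ f) q := hf.fderiv_right (by norm_num)
  have h2 : ContDiffAt ℝ 2 (fun q' => fderiv ℝ f q' u) q := h.clm_apply contDiffAt_const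
  exact h2.differentiableAt (by norm_num)

lemma LA_snd {f : ℝ × ℝ → ℝ} {q : ℝ × ℝ} (hf : ContDiffAt ℝ 3 f q) (u w : ℝ × ℝ) :
    fderiv ℝ (fun q' => fderiv ℝ f q' u) q w = fderiv ℝ (fderiv ℝ f) q w u := by
  have h : ContDiffAt ℝ 2 (fderiv ℝ f) q := hf.fderiv_right (by norm_num)
  have h1 : DifferentiableAt ℝ (fderiv ℝ f) q := h.differentiableAt (by norm_num)
  have h2 := (h1.hasFDerivAt.clm_apply (hasFDerivAt_const u q)).fderiv
  rw [h2]
  simp

lemma LA_symm {f : ℝ × ℝ → ℝ} {q : ℝ × ℝ} (hf : ContDiffAt ℝ 3 f q) (u w : ℝ × ℝ) :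
    fderiv ℝ (fun q' => fderiv ℝ f q' u) q w = fderiv ℝ (fun q' => fderiv ℝ f q' w) q u := by
  rw [LA_snd hf, LA_snd hf]
  have := (hf.isSymmSndFDerivAt (by simp; norm_num)).eq w u
  exact this

lemma LA_diff_slope {f : ℝ × ℝ → ℝ} {q : ℝ × ℝ} (hf : ContDiffAt ℝ 3 f q) (h0 : dt f q ≠ 0) :
    DifferentiableAt ℝ (slope f) q := by
  have h1 := LA_diff_fderiv hf (1, 0)
  have h2 := LA_diff_fderiv hf (0, 1)
  have h3 : DifferentiableAt ℝ (fun q' => (dt f q')⁻¹) q := DifferentiableAt.fun_inv h2 h0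
  have h4 : DifferentiableAt ℝ (fun q' => (-fderiv ℝ f q' (1, 0)) * (dt f q')⁻¹) q :=
    h1.fun_neg.fun_mul h3
  have h5 : slope f = fun q' => (-fderiv ℝ f q' (1, 0)) * (dt f q')⁻¹ := by
    funext q'
    unfold slope dz
    rw [div_eq_mul_inv]
  rw [h5]
  exact h4

/-- Derivative of the slope equation. -/
lemma LA_slope {f : ℝ × ℝ → ℝ} {q : ℝ × ℝ} (hf : ContDiffAt ℝ 3 f q) (h0 : dt f q ≠ 0)
    (w : ℝ × ℝ) :
    fderiv ℝ (dz f) q w
      = -(fderiv ℝ (slope f) q w * dt f q + slope f q * fderiv ℝ (dt f) q w) := by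
  have h1 := LA_diff_fderiv hf (1, 0)
  have h2 : DifferentiableAt ℝ (dt f) q := LA_diff_fderiv hf (0, 1)
  have h3 := LA_diff_slope hf h0
  have hne : ∀ᶠ q' in 𝓝 q, dt f q' ≠ 0 := h2.continuousAt.eventually_ne h0
  have he : dz f =ᶠ[𝓝 q] fun q' => -(slope f q' * dt f q') := by
    filter_upwards [hne] with q' hq'
    unfold slope
    field_simp
  rw [he.fderiv_eq]
  have h4 := (h3.hasFDerivAt.mul h2.hasFDerivAt).neg.fderiv
  have h5 : (fun q' => -(slope f q' * dt f q')) = -(slope f * dt f) := rfl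
  rw [h5, h4]
  simp
  ring

lemma LA_link {f g Dl : ℝ × ℝ → ℝ} {q : ℝ × ℝ} {s : ℝ} (hf : ContDiffAt ℝ 3 f q)
    (hg : ContDiffAt ℝ 3 g q) (hD : ContDiffAt ℝ 1 Dl q) (h0 : dt f q ≠ 0) (h1 : dt g q ≠ 0)
    (hrel : ∀ᶠ q' in 𝓝 q, dz f q' * dt g q' - dz g q' * dt f q' = s * Dl q') (w : ℝ × ℝ) :
    (fderiv ℝ (slope f) q w - fderiv ℝ (slope g) q w) * (dt f q * dt g q)
      + (slope f q - slope g q) * (fderiv ℝ (dt f) q w * dt g q + dt f q * fderiv ℝ (dt g) q w)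
      = - s * fderiv ℝ Dl q w := by
  have hf2 : DifferentiableAt ℝ (dt f) q := LA_diff_fderiv hf (0, 1)
  have hg2 : DifferentiableAt ℝ (dt g) q := LA_diff_fderiv hg (0, 1)
  have hf3 := LA_diff_slope hf h0
  have hg3 := LA_diff_slope hg h1
  have hD1 : DifferentiableAt ℝ Dl q := hD.differentiableAt (by norm_num)
  have hne : ∀ᶠ q' in 𝓝 q, dt f q' ≠ 0 := hf2.continuousAt.eventually_ne h0
  have hne' : ∀ᶠ q' in 𝓝 q, dt g q' ≠ 0 := hg2.continuousAt.eventually_ne h1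
  have he : (fun q' => (slope f q' - slope g q') * (dt f q' * dt g q'))
      =ᶠ[𝓝 q] fun q' => -s * Dl q' := by
    filter_upwards [hne, hne', hrel] with q' h2 h3 h4
    unfold slope
    field_simp
    linear_combination (-1 : ℝ) * h4
  have e1 := he.fderiv_eq (𝕜 := ℝ)
  have e2 := ((hf3.hasFDerivAt.sub hg3.hasFDerivAt).mul
    (hf2.hasFDerivAt.mul hg2.hasFDerivAt)).fderiv
  have e3 : fderiv ℝ (fun q' => -s * Dl q') q = -s • fderiv ℝ Dl q := fderiv_const_mul hD1 (-s)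
  have e4 : (fun q' => (slope f q' - slope g q') * (dt f q' * dt g q'))
      = (slope f - slope g) * (dt f * dt g) := rfl
  rw [e4, e2, e3] at e1
  have e5 := DFunLike.congr_fun e1 w
  simp at e5
  linear_combination e5

lemma LA_D {e : ℝ} {f g Dl : ℝ × ℝ → ℝ} {q : ℝ × ℝ} (hf : ContDiffAt ℝ 3 f q)
    (hg : ContDiffAt ℝ 3 g q) (hD : ContDiffAt ℝ 1 Dl q)
    (hrel : ∀ᶠ q' in 𝓝 q, Dl q' ^ 2 = e ^ 2 + (1 - f q' ^ 2) * (1 - g q' ^ 2)) (w : ℝ × ℝ) :
    Dl q * fderiv ℝ Dl q w = -(f q * fderiv ℝ f q w * (1 - g q ^ 2))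
      - g q * fderiv ℝ g q w * (1 - f q ^ 2) := by
  have hf1 : HasFDerivAt f (fderiv ℝ f q) q := (hf.differentiableAt (by norm_num)).hasFDerivAt
  have hg1 : HasFDerivAt g (fderiv ℝ g q) q := (hg.differentiableAt (by norm_num)).hasFDerivAt
  have hD1 : HasFDerivAt Dl (fderiv ℝ Dl q) q := (hD.differentiableAt (by norm_num)).hasFDerivAt
  have he : (fun q' => Dl q' ^ 2)
      =ᶠ[𝓝 q] fun q' => e ^ 2 + (1 - f q' ^ 2) * (1 - g q' ^ 2) := hrel
  have e1 := he.fderiv_eq (𝕜 := ℝ)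
  have sq : ∀ {u : ℝ × ℝ → ℝ} {L : ℝ × ℝ →L[ℝ] ℝ}, HasFDerivAt u L q →
      HasFDerivAt (fun q' => u q' ^ 2) ((2 * u q) • L) q := by
    intro u L h
    have h2 := h.fun_mul h
    have h3 : (fun q' => u q' * u q') = fun q' => u q' ^ 2 := by funext q'; ring
    rw [h3] at h2
    refine h2.congr_fderiv ?_
    ext <;> simp <;> ring
  have e2 := (sq hD1).fderiv
  have e3 := ((((sq hf1).const_sub 1).fun_mul ((sq hg1).const_sub 1)).const_add (e ^ 2)).fderiv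
  rw [e2, e3] at e1
  have e6 := DFunLike.congr_fun e1 w
  simp at e6
  linear_combination (1 / 2) * e6

/-- Bound for the derivative of `D`. -/
lemma LA_D_bound {e B0 d0 : ℝ} {f g Dl : ℝ × ℝ → ℝ} {q : ℝ × ℝ} (hf : ContDiffAt ℝ 3 f q)
    (hg : ContDiffAt ℝ 3 g q) (hD : ContDiffAt ℝ 1 Dl q) (hd0 : 0 < d0) (hB0 : 0 ≤ B0)
    (hfB : |f q| ≤ B0) (hgB : |g q| ≤ B0)
    (hrel : ∀ᶠ q' in 𝓝 q, Dl q' ^ 2 = e ^ 2 + (1 - f q' ^ 2) * (1 - g q' ^ 2))
    (hd : d0 ≤ |Dl q|) (w : ℝ × ℝ) :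
    |fderiv ℝ Dl q w| ≤ B0 * (1 + B0 ^ 2) / d0 * (|fderiv ℝ f q w| + |fderiv ℝ g q w|) := by
  have h := LA_D hf hg hD hrel w
  have h1 := congrArg abs h
  rw [abs_mul] at h1
  have hq : ∀ x : ℝ, |x| ≤ B0 → |1 - x ^ 2| ≤ 1 + B0 ^ 2 := by
    intro x hx
    have h2 : x ^ 2 ≤ B0 ^ 2 := by rw [← sq_abs]; exact pow_le_pow_left₀ (abs_nonneg _) hx 2
    have h3 := sq_nonneg x
    rw [abs_le]
    constructor <;> nlinarith [sq_nonneg B0]
  have h2 : |f q * fderiv ℝ f q w * (1 - g q ^ 2)| ≤ B0 * |fderiv ℝ f q w| * (1 + B0 ^ 2) := by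
    rw [abs_mul, abs_mul]
    exact mul_le_mul (mul_le_mul_of_nonneg_right hfB (abs_nonneg _)) (hq _ hgB) (abs_nonneg _)
      (by positivity)
  have h3 : |g q * fderiv ℝ g q w * (1 - f q ^ 2)| ≤ B0 * |fderiv ℝ g q w| * (1 + B0 ^ 2) := by
    rw [abs_mul, abs_mul]
    exact mul_le_mul (mul_le_mul_of_nonneg_right hgB (abs_nonneg _)) (hq _ hfB) (abs_nonneg _)
      (by positivity)
  have h4 : |-(f q * fderiv ℝ f q w * (1 - g q ^ 2)) - g q * fderiv ℝ g q w * (1 - f q ^ 2)|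
      ≤ B0 * |fderiv ℝ f q w| * (1 + B0 ^ 2) + B0 * |fderiv ℝ g q w| * (1 + B0 ^ 2) := by
    refine (abs_sub _ _).trans ?_
    rw [abs_neg]
    linarith
  rw [← h1] at h4
  have h5 : d0 * |fderiv ℝ Dl q w| ≤ |Dl q| * |fderiv ℝ Dl q w| :=
    mul_le_mul_of_nonneg_right hd (abs_nonneg _)
  have h6 : |fderiv ℝ Dl q w| = d0 * |fderiv ℝ Dl q w| / d0 := by field_simp
  rw [h6, div_mul_eq_mul_div, div_le_div_iff_of_pos_right hd0]
  linarith

lemma LA_Dl_le {e B0 x y d : ℝ} (hB0 : 0 ≤ B0) (hx : |x| ≤ B0) (hy : |y| ≤ B0)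
    (h : d ^ 2 = e ^ 2 + (1 - x ^ 2) * (1 - y ^ 2)) : |d| ≤ 1 + e ^ 2 + (1 + B0 ^ 2) ^ 2 := by
  have hx2 : x ^ 2 ≤ B0 ^ 2 := by rw [← sq_abs]; exact pow_le_pow_left₀ (abs_nonneg _) hx 2
  have hy2 : y ^ 2 ≤ B0 ^ 2 := by rw [← sq_abs]; exact pow_le_pow_left₀ (abs_nonneg _) hy 2
  have h1 : (1 - x ^ 2) * (1 - y ^ 2) ≤ (1 + B0 ^ 2) ^ 2 := by
    have h2 : |(1 - x ^ 2) * (1 - y ^ 2)| ≤ (1 + B0 ^ 2) * (1 + B0 ^ 2) := by
      rw [abs_mul]
      refine mul_le_mul ?_ ?_ (abs_nonneg _) (by positivity)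
      · rw [abs_le]; constructor <;> nlinarith [sq_nonneg x, sq_nonneg B0]
      · rw [abs_le]; constructor <;> nlinarith [sq_nonneg y, sq_nonneg B0]
    have h3 := le_abs_self ((1 - x ^ 2) * (1 - y ^ 2))
    nlinarith
  have h4 : |d| ≤ 1 + d ^ 2 := by
    rw [← sq_abs d]
    nlinarith [sq_nonneg (|d| - 1), abs_nonneg d]
  linarith

/-- The general link bound in a direction `w`. -/
lemma LA_main {e B0 : ℝ} {f g Dl : ℝ × ℝ → ℝ} {q : ℝ × ℝ} {s : ℝ} (hs : s ^ 2 = 1)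
    (hB0 : 0 ≤ B0) (hf : ContDiffAt ℝ 3 f q)
    (hg : ContDiffAt ℝ 3 g q) (hD : ContDiffAt ℝ 1 Dl q) (h0 : dt f q ≠ 0) (h1 : dt g q ≠ 0)
    (hfB : |f q| ≤ B0) (hgB : |g q| ≤ B0)
    (hsq : ∀ᶠ q' in 𝓝 q, Dl q' ^ 2 = e ^ 2 + (1 - f q' ^ 2) * (1 - g q' ^ 2))
    (hrel : ∀ᶠ q' in 𝓝 q, dz f q' * dt g q' - dz g q' * dt f q' = s * Dl q') (w : ℝ × ℝ) :
    |fderiv ℝ (slope f) q w - fderiv ℝ (slope g) q w| * (|dt f q| * |dt g q|)
      ≤ |fderiv ℝ Dl q w| + (1 + e ^ 2 + (1 + B0 ^ 2) ^ 2)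
        * (|fderiv ℝ (dt f) q w| / |dt f q| + |fderiv ℝ (dt g) q w| / |dt g q|) := by
  have hl := LA_link hf hg hD h0 h1 hrel w
  have hm : (slope f q - slope g q) * (dt f q * dt g q) = - s * Dl q := by
    have h4 := hrel.self_of_nhds
    unfold slope
    field_simp
    linear_combination (-1 : ℝ) * h4
  have hDle := LA_Dl_le hB0 hfB hgB hsq.self_of_nhds
  have hs1 : |s| = 1 := by
    have := sq_abs s
    rw [hs] at this
    nlinarith [abs_nonneg s]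
  have key : (fderiv ℝ (slope f) q w - fderiv ℝ (slope g) q w) * (dt f q * dt g q)
      = - s * fderiv ℝ Dl q w
        + s * (Dl q * (fderiv ℝ (dt f) q w / dt f q + fderiv ℝ (dt g) q w / dt g q)) := by
    have e1 : (slope f q - slope g q)
        * (fderiv ℝ (dt f) q w * dt g q + dt f q * fderiv ℝ (dt g) q w)
        = - s * Dl q * (fderiv ℝ (dt f) q w / dt f q + fderiv ℝ (dt g) q w / dt g q) := by
      rw [← hm]
      field_simp
    linear_combination hl - e1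
  have h2 := congrArg abs key
  rw [abs_mul, abs_mul] at h2
  rw [h2]
  refine (abs_add_le _ _).trans ?_
  rw [abs_mul, abs_mul, abs_mul, abs_neg, hs1, one_mul, one_mul]
  have h3 : |fderiv ℝ (dt f) q w / dt f q + fderiv ℝ (dt g) q w / dt g q|
      ≤ |fderiv ℝ (dt f) q w| / |dt f q| + |fderiv ℝ (dt g) q w| / |dt g q| := by
    refine (abs_add_le _ _).trans ?_
    rw [abs_div, abs_div]
  have h4 := mul_le_mul hDle h3 (abs_nonneg _) (by positivity)
  linarith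

lemma LA_div {X Y A B : ℝ} (hA : 0 < A) (hB : 0 < B) (h : X * (A * B) ≤ Y * (A + B)) :
    X ≤ Y * (1 / A + 1 / B) := by
  have h1 : Y * (1 / A + 1 / B) = Y * (A + B) / (A * B) := by
    field_simp
    ring
  rw [h1, le_div_iff₀ (by positivity)]
  exact h

theorem link_abs (e B0 d0 C0 g0 : ℝ) (hd0 : 0 < d0) (hg0 : 0 < g0) (hB0 : 0 ≤ B0) (hC0 : 0 ≤ C0) :
    ∃ C : ℝ, 0 ≤ C ∧ ∀ (f g Dl : ℝ × ℝ → ℝ) (q : ℝ × ℝ) (s : ℝ), s ^ 2 = 1 →
      ContDiffAt ℝ 3 f q → ContDiffAt ℝ 3 g q → ContDiffAt ℝ 1 Dl q →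
      |f q| ≤ B0 → |g q| ≤ B0 →
      (∀ᶠ q' in 𝓝 q, Dl q' ^ 2 = e ^ 2 + (1 - f q' ^ 2) * (1 - g q' ^ 2)) →
      (∀ᶠ q' in 𝓝 q, dz f q' * dt g q' - dz g q' * dt f q' = s * Dl q') →
      d0 ≤ |Dl q| → g0 ≤ |dt f q| → g0 ≤ |dt g q| →
      |dt (dt f) q| ≤ C0 * dt f q ^ 2 → |dt (dt g) q| ≤ C0 * dt g q ^ 2 →
      |slope f q - slope g q| * (|dt f q| * |dt g q|) ≤ C ∧
      |dt (slope f) q - dt (slope g) q| ≤ C * (1 / |dt f q| + 1 / |dt g q|) ∧
      |dz (slope f) q - dz (slope g) q| ≤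
        C * (1 + |slope f q| + |slope g q| + |dt (slope f) q| + |dt (slope g) q|)
          * (1 / |dt f q| + 1 / |dt g q|) := by
  set M : ℝ := 1 + e ^ 2 + (1 + B0 ^ 2) ^ 2 with hM
  set K : ℝ := B0 * (1 + B0 ^ 2) / d0 with hK
  have hM0 : 0 ≤ M := by positivity
  have hK0 : 0 ≤ K := by positivity
  have hMC : 0 ≤ M * C0 := by positivity
  have hMg : 0 ≤ M / g0 := by positivity
  refine ⟨M + K + M * C0 + M / g0, by positivity, ?_⟩
  intro f g Dl q s hs hf hg hD hfB hgB hsq hrel hd hgf hgg hff hggt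
  have hA : 0 < |dt f q| := lt_of_lt_of_le hg0 hgf
  have hB : 0 < |dt g q| := lt_of_lt_of_le hg0 hgg
  have h0 : dt f q ≠ 0 := abs_pos.mp hA
  have h1 : dt g q ≠ 0 := abs_pos.mp hB
  have hDle : |Dl q| ≤ M := LA_Dl_le hB0 hfB hgB hsq.self_of_nhds
  have hs1 : |s| = 1 := by
    have := sq_abs s
    rw [hs] at this
    nlinarith [abs_nonneg s]
  have hA2 : |dt (dt f) q| ≤ C0 * |dt f q| ^ 2 := by rw [sq_abs]; exact hff
  have hB2 : |dt (dt g) q| ≤ C0 * |dt g q| ^ 2 := by rw [sq_abs]; exact hggt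
  have hA3 : |dt (dt f) q| / |dt f q| ≤ C0 * |dt f q| := by
    rw [div_le_iff₀ hA]; linarith
  have hB3 : |dt (dt g) q| / |dt g q| ≤ C0 * |dt g q| := by
    rw [div_le_iff₀ hB]; linarith
  refine ⟨?_, ?_, ?_⟩
  · have hm : (slope f q - slope g q) * (dt f q * dt g q) = - s * Dl q := by
      have h4 := hrel.self_of_nhds
      unfold slope
      field_simp
      linear_combination (-1 : ℝ) * h4
    have h2 := congrArg abs hm
    rw [abs_mul, abs_mul, abs_mul, abs_neg, hs1, one_mul] at h2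
    rw [h2]
    linarith
  · apply LA_div hA hB
    have h2 := LA_main hs hB0 hf hg hD h0 h1 hfB hgB hsq hrel (0, 1)
    have h3 := LA_D_bound hf hg hD hd0 hB0 hfB hgB hsq hd (0, 1)
    have h4 : M * (|fderiv ℝ (dt f) q (0, 1)| / |dt f q| + |fderiv ℝ (dt g) q (0, 1)| / |dt g q|)
        ≤ M * (C0 * |dt f q| + C0 * |dt g q|) :=
      mul_le_mul_of_nonneg_left (add_le_add hA3 hB3) hM0
    have h5 : |fderiv ℝ f q (0, 1)| = |dt f q| := rfl
    have h6 : |fderiv ℝ g q (0, 1)| = |dt g q| := rfl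
    rw [h5, h6] at h3
    have h7 : |dt (slope f) q - dt (slope g) q| * (|dt f q| * |dt g q|)
        ≤ K * (|dt f q| + |dt g q|) + M * (C0 * |dt f q| + C0 * |dt g q|) := by
      refine h2.trans ?_
      linarith
    refine h7.trans ?_
    have h8 : 0 ≤ (M + M / g0) * (|dt f q| + |dt g q|) := by positivity
    linarith
  · apply LA_div hA hB
    have h2 := LA_main hs hB0 hf hg hD h0 h1 hfB hgB hsq hrel (1, 0)
    have h3 := LA_D_bound hf hg hD hd0 hB0 hfB hgB hsq hd (1, 0)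
    have hzf : |fderiv ℝ f q (1, 0)| = |slope f q| * |dt f q| := by
      rw [← abs_mul]
      unfold slope
      rw [div_mul_cancel₀ _ h0, abs_neg]
      rfl
    have hzg : |fderiv ℝ g q (1, 0)| = |slope g q| * |dt g q| := by
      rw [← abs_mul]
      unfold slope
      rw [div_mul_cancel₀ _ h1, abs_neg]
      rfl
    have hmix : ∀ (u : ℝ × ℝ → ℝ), ContDiffAt ℝ 3 u q → dt u q ≠ 0 → 0 < |dt u q| →
        |dt (dt u) q| ≤ C0 * |dt u q| ^ 2 →
        |fderiv ℝ (dt u) q (1, 0)| / |dt u q| ≤ |dt (slope u) q| + |slope u q| * (C0 * |dt u q|) := by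
      intro u hu hu0 hup hu2
      have e1 : fderiv ℝ (dt u) q (1, 0) = fderiv ℝ (dz u) q (0, 1) := LA_symm hu (0, 1) (1, 0)
      rw [e1, LA_slope hu hu0 (0, 1), abs_neg, div_le_iff₀ hup]
      refine (abs_add_le _ _).trans ?_
      rw [abs_mul, abs_mul]
      have e2 : |slope u q| * |dt (dt u) q| ≤ |slope u q| * (C0 * |dt u q| ^ 2) :=
        mul_le_mul_of_nonneg_left hu2 (abs_nonneg _)
      have e3 : |fderiv ℝ (slope u) q (0, 1)| = |dt (slope u) q| := rfl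
      have e4 : |fderiv ℝ (dt u) q (0, 1)| = |dt (dt u) q| := rfl
      rw [e3, e4]
      linarith
    have h4 := hmix f hf h0 hA hA2
    have h5 := hmix g hg h1 hB hB2
    rw [hzf, hzg] at h3
    have h6 : M * (|fderiv ℝ (dt f) q (1, 0)| / |dt f q| + |fderiv ℝ (dt g) q (1, 0)| / |dt g q|)
        ≤ M * ((|dt (slope f) q| + |slope f q| * (C0 * |dt f q|))
          + (|dt (slope g) q| + |slope g q| * (C0 * |dt g q|))) :=
      mul_le_mul_of_nonneg_left (add_le_add h4 h5) hM0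
    have h7 : |dz (slope f) q - dz (slope g) q| * (|dt f q| * |dt g q|)
        ≤ K * (|slope f q| * |dt f q| + |slope g q| * |dt g q|)
          + M * ((|dt (slope f) q| + |slope f q| * (C0 * |dt f q|))
          + (|dt (slope g) q| + |slope g q| * (C0 * |dt g q|))) := by
      refine h2.trans ?_
      linarith
    refine h7.trans ?_
    set a := |dt f q| with ha
    set b := |dt g q| with hb
    set mf := |slope f q| with hmf
    set mg := |slope g q| with hmg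
    set tf := |dt (slope f) q| with htf
    set tg := |dt (slope g) q| with htg
    have hmf0 : 0 ≤ mf := abs_nonneg _
    have hmg0 : 0 ≤ mg := abs_nonneg _
    have htf0 : 0 ≤ tf := abs_nonneg _
    have htg0 : 0 ≤ tg := abs_nonneg _
    have s1 : mf * a + mg * b ≤ (mf + mg) * (a + b) := by
      nlinarith [mul_nonneg hmf0 hB.le, mul_nonneg hmg0 hA.le]
    have s2 : M * (tf + tg) ≤ M / g0 * (tf + tg) * (a + b) := by
      have e1 : M * (tf + tg) = M / g0 * (tf + tg) * g0 := by field_simp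
      rw [e1]
      exact mul_le_mul_of_nonneg_left (by linarith) (by positivity)
    have s3 : K * (mf * a + mg * b) ≤ K * ((mf + mg) * (a + b)) :=
      mul_le_mul_of_nonneg_left s1 hK0
    have s4 : M * C0 * (mf * a + mg * b) ≤ M * C0 * ((mf + mg) * (a + b)) :=
      mul_le_mul_of_nonneg_left s1 hMC
    have s5 : K * (mf * a + mg * b) + M * ((tf + mf * (C0 * a)) + (tg + mg * (C0 * b)))
        = K * (mf * a + mg * b) + M * (tf + tg) + M * C0 * (mf * a + mg * b) := by ring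
    rw [s5]
    have s6 : 0 ≤ (M + K + M * C0 + M / g0) * (a + b) := by positivity
    have s7 : 0 ≤ (M + M / g0) * (mf + mg) * (a + b) := by positivity
    have s8 : 0 ≤ (M + K + M * C0) * (tf + tg) * (a + b) := by positivity
    linarith

end TM
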