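import Pool.Agent.Helper84.TM_FI
import Pool.Agent.Helper84.TM_KA
import Pool.Agent.Helper8.TM_CF

/-!
# MP_fc8395_an : the moves of the chain (module MV)
-/

set_option autoImplicit false

open scoped ContDiff Topology
open Filter Set

namespace TM

theorem Tan_TRh {e : ℝ} {q : Pt × Pt} (h : Tan e q) : Tan e (TRh q) := by
  obtain ⟨⟨x, y, z⟩, ⟨a, b, c⟩⟩ := q
  have h1 : FV (x, y, z) = 1 + e ^ 2 := h.1
  have h2 := h.2
  refine ⟨?_, ?_⟩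
  · show FV (Rh (x, y, z)) = 1 + e ^ 2
    simp only [FV, Rh] at h1 ⊢
    linear_combination h1
  · simp only [TRh, Rh, dFV] at h2 ⊢
    linear_combination h2

/-- `D` at the next point of the fan. -/
lemma MV_D_succ (p : Pt) (j : ℕ) :
    D (U^[j + 1] p) = (U^[j] p).2.2 - p.2.1 * (U^[j + 1] p).2.2 := by
  rw [Function.iterate_succ_apply', D_U, U_z, U_iter_y, x_eq (U^[j] p), U_iter_y]
  ring

lemma MV_D (p : Pt) (j : ℕ) :
    D (U^[j] p) = p.2.1 * (U^[j] p).2.2 - (U^[j + 1] p).2.2 := by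
  rw [← U_iter_x]
  unfold D
  rw [U_iter_y]

lemma MV_D_sq {e : ℝ} {p : Pt} (hp : p ∈ Surf e) (j : ℕ) :
    D (U^[j] p) ^ 2 = e ^ 2 + (1 - p.2.1 ^ 2) * (1 - (U^[j] p).2.2 ^ 2) := by
  have h := D_sq (U_iter_mem hp j)
  rwa [U_iter_y] at h

lemma MV_lt_V {e t : ℝ} (he : 0 < e) (h : t ^ 2 ≤ 1 + e ^ 2 / 2) : |t| < V e := by
  have h1 := V_sq e
  have h2 := one_lt_V he
  have h3 : 0 < e ^ 2 := by positivity
  apply abs_lt_of_sq_lt_sq _ (by linarith)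
  nlinarith

lemma MV_sq_lt {e t : ℝ} (he : 0 < e) (h : |t| < V e) : t ^ 2 < 1 + e ^ 2 := by
  have h1 := V_sq e
  have h2 := one_lt_V he
  have h3 := sq_lt_sq' (a := t) (b := V e) (by linarith [(abs_lt.mp h).1]) (abs_lt.mp h).2
  linarith

/-- The core relation: `r_j = r_0 + κ_j`. -/
lemma MV_core {e L : ℝ} (he : 0 < e) {q : Pt × Pt} (hq : Base e L q) {j : ℕ}
    (ht : |(U^[j] q.1).2.2| < V e) :
    D q.1 ≠ 0 ∧ D (U^[j] q.1) ≠ 0 ∧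
    (1 - q.1.2.1 ^ 2) * (TU^[j] q).2.2.2 / (D (U^[j] q.1) * q.2.2.1)
      = (1 - q.1.2.1 ^ 2) * q.2.2.2 / (D q.1 * q.2.2.1) + kap e q.1 j := by
  have hy := (sq_lt_one_iff_abs_lt_one _).2 hq.y_lt
  have hz := (sq_lt_one_iff_abs_lt_one _).2 hq.z_lt
  have he2 : 0 < e ^ 2 := by positivity
  have hD0 : D q.1 ^ 2 = _ := D_sq hq.tan.1
  have hDj := MV_D_sq hq.tan.1 j
  have htj := MV_sq_lt he ht
  have h0 : D q.1 ≠ 0 := by
    intro h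
    rw [h] at hD0
    have : 0 ≤ (1 - q.1.2.1 ^ 2) * (1 - q.1.2.2 ^ 2) :=
      mul_nonneg (by linarith) (by linarith)
    nlinarith
  have hj : D (U^[j] q.1) ≠ 0 := by
    intro h
    rw [h] at hDj
    have h1 : 0 < 1 - q.1.2.1 ^ 2 := by linarith
    have h2 : (1 - q.1.2.1 ^ 2) * (1 - (U^[j] q.1).2.2 ^ 2) > (1 - q.1.2.1 ^ 2) * (- e ^ 2) :=
      mul_lt_mul_of_pos_left (by linarith) h1
    nlinarith [mul_nonneg (sq_nonneg q.1.2.1) he2.le]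
  refine ⟨h0, hj, ?_⟩
  have hfan := fan_identity hq.tan j
  have hvy := hq.vy
  unfold kap
  field_simp
  linear_combination hfan

/-- The ratio `r_j`. -/
noncomputable def MVr (q : Pt × Pt) (j : ℕ) : ℝ :=
  (1 - q.1.2.1 ^ 2) * (TU^[j] q).2.2.2 / (D (U^[j] q.1) * q.2.2.1)

/-- The ratio `r_0`. -/
noncomputable def MVr0 (q : Pt × Pt) : ℝ := (1 - q.1.2.1 ^ 2) * q.2.2.2 / (D q.1 * q.2.2.1)

lemma MV_b {e L : ℝ} {q : Pt × Pt} (hq : Base e L q) : 0 < 1 - q.1.2.1 ^ 2 := by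
  have hy := (sq_lt_one_iff_abs_lt_one _).2 hq.y_lt
  linarith

lemma MV_b_le (q : Pt × Pt) : 1 - q.1.2.1 ^ 2 ≤ 1 := by
  nlinarith [sq_nonneg q.1.2.1]

/-- `r_0 ≥ 0`, or `r_0 ≥ -1` and `|t_1| ≥ 1`. -/
lemma MV_r0 {e L : ℝ} {q : Pt × Pt} (hq : Base e L q) (h0 : D q.1 ≠ 0) :
    0 ≤ MVr0 q ∨ (-1 ≤ MVr0 q ∧ 1 ≤ |(U^[1] q.1).2.2|) := by
  have hvy := hq.vy
  have hb := MV_b hq
  have hpos : 0 < (D q.1 * q.2.2.1) ^ 2 := by positivity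
  have key : MVr0 q * (D q.1 * q.2.2.1) ^ 2
      = (1 - q.1.2.1 ^ 2) * (q.2.2.2 * q.2.2.1 * D q.1) := by
    unfold MVr0
    field_simp
  rcases hq.r with h | ⟨h1, h2⟩
  · left
    by_contra hc
    push Not at hc
    have : MVr0 q * (D q.1 * q.2.2.1) ^ 2 < 0 := mul_neg_of_neg_of_pos hc hpos
    rw [key] at this
    have : 0 ≤ (1 - q.1.2.1 ^ 2) * (q.2.2.2 * q.2.2.1 * D q.1) := mul_nonneg hb.le h
    linarith
  · right
    refine ⟨?_, h2⟩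
    by_contra hc
    push Not at hc
    have : MVr0 q * (D q.1 * q.2.2.1) ^ 2 < -1 * (D q.1 * q.2.2.1) ^ 2 :=
      mul_lt_mul_of_pos_right hc hpos
    rw [key] at this
    nlinarith

/-- The four properties of the ratio `r_j`. -/
lemma MV_r {e L : ℝ} (he : 0 < e) {q : Pt × Pt} (hq : Base e L q) {j : ℕ}
    (ht : |(U^[j] q.1).2.2| < V e) :
    (okj q j → 0 < MVr q j ∧ |MVr0 q| ≤ MVr q j ∧
      ((U^[j] q.1).2.2 ^ 2 ≤ 1 + e ^ 2 / 2 → (1 - q.1.2.1 ^ 2) / 4 ≤ MVr q j)) ∧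
    (∀ i, 0 < i → i < j → 1 ≤ |(U^[i] q.1).2.2| → 1 ≤ MVr q j ∧ okj q j) := by
  obtain ⟨h0, hj, hr⟩ := MV_core he hq ht
  have hr' : MVr q j = MVr0 q + kap e q.1 j := hr
  have hb := MV_b hq
  have hb1 := MV_b_le q
  have hr0 := MV_r0 hq h0
  refine ⟨?_, ?_⟩
  · intro hok
    have hj1 : 1 ≤ j := by
      rcases hok with h | h
      · exact h.2
      · omega
    have hk := kap_pos he hq.tan.1 hq.y_lt hq.z_lt.le hj1 ht
    by_cases hE : 0 ≤ MVr0 q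
    · refine ⟨by linarith, by rw [abs_of_nonneg hE]; linarith, fun h => ?_⟩
      have h2 := kap_lower he hq.tan.1 hq.y_lt hq.z_lt.le h
      have h3 : (1 : ℝ) ≤ j := by exact_mod_cast hj1
      have h4 : (1 - q.1.2.1 ^ 2) / 4 * 1 ≤ (1 - q.1.2.1 ^ 2) / 4 * j :=
        mul_le_mul_of_nonneg_left h3 (by linarith)
      linarith
    · have hM : -1 ≤ MVr0 q ∧ 1 ≤ |(U^[1] q.1).2.2| := by
        rcases hr0 with h | h
        · exact absurd h hE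
        · exact h
      push Not at hE
      have hj2 : 2 ≤ j := by
        rcases hok with ⟨h, h'⟩ | h
        · exfalso
          have hpos : 0 < (D q.1 * q.2.2.1) ^ 2 := by
            have := hq.vy
            positivity
          have key : MVr0 q * (D q.1 * q.2.2.1) ^ 2
              = (1 - q.1.2.1 ^ 2) * (q.2.2.2 * q.2.2.1 * D q.1) := by
            have := hq.vy
            unfold MVr0
            field_simp
          have h5 : MVr0 q * (D q.1 * q.2.2.1) ^ 2 < 0 := mul_neg_of_neg_of_pos hE hpos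
          rw [key] at h5
          have : 0 ≤ (1 - q.1.2.1 ^ 2) * (q.2.2.2 * q.2.2.1 * D q.1) := mul_nonneg hb.le h
          linarith
        · exact h
      have h2 := kap_cross he hq.tan.1 hq.y_lt hq.z_lt.le Nat.one_pos
        (by omega : 1 < j) hM.2 ht
      refine ⟨by linarith, ?_, fun _ => by linarith⟩
      rw [abs_of_neg hE]
      linarith
  · intro i hi hij hc
    have h2 := kap_cross he hq.tan.1 hq.y_lt hq.z_lt.le hi hij hc ht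
    refine ⟨?_, Or.inr (by omega)⟩
    rcases hr0 with h | h
    · linarith
    · linarith [h.1]

/-- `η_j` in terms of `r_j`. -/
lemma MV_eta {e L : ℝ} (he : 0 < e) {q : Pt × Pt} (hq : Base e L q) {j : ℕ}
    (ht : |(U^[j] q.1).2.2| < V e) :
    (1 - q.1.2.1 ^ 2) * (TU^[j] q).2.2.2 = MVr q j * D (U^[j] q.1) * q.2.2.1 := by
  obtain ⟨h0, hj, -⟩ := MV_core he hq ht
  have := hq.vy
  unfold MVr
  field_simp

/-- `L ≤ |r_0| η_b² / b²`. -/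
lemma MV_L {e L : ℝ} (he : 0 < e) {q : Pt × Pt} (hq : Base e L q) :
    (1 - q.1.2.1 ^ 2) * L ≤ |MVr0 q| * q.2.2.1 ^ 2 := by
  have hz := hq.z_lt
  have ht : |(U^[0] q.1).2.2| < V e := lt_trans hz (one_lt_V he)
  obtain ⟨h0, -, -⟩ := MV_core he hq ht
  have hvy := hq.vy
  have hb := MV_b hq
  have hD : 0 < |D q.1| := abs_pos.mpr h0
  have hp := hq.p
  have e1 : |MVr0 q| * q.2.2.1 ^ 2
      = (1 - q.1.2.1 ^ 2) * (|q.2.2.1 * q.2.2.2| / |D q.1|) := by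
    unfold MVr0
    rw [abs_div, abs_mul, abs_mul, abs_mul, abs_of_pos hb, ← sq_abs q.2.2.1]
    have : |q.2.2.1| ≠ 0 := abs_ne_zero.mpr hvy
    field_simp
  rw [e1]
  exact mul_le_mul_of_nonneg_left ((le_div_iff₀ hD).2 hp) hb.le

lemma MV_Dsq_ge {e : ℝ} {p : Pt} (hp : p ∈ Surf e) (hy : |p.2.1| < 1) {j : ℕ}
    (ht : (U^[j] p).2.2 ^ 2 ≤ 1 + e ^ 2 / 2) : e ^ 2 / 2 ≤ D (U^[j] p) ^ 2 := by
  have h := MV_D_sq hp j
  have hy' := (sq_lt_one_iff_abs_lt_one _).2 hy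
  have hy0 := sq_nonneg p.2.1
  have h1 : (1 - p.2.1 ^ 2) * (-(e ^ 2 / 2)) ≤ (1 - p.2.1 ^ 2) * (1 - (U^[j] p).2.2 ^ 2) :=
    mul_le_mul_of_nonneg_left (by linarith) (by linarith)
  nlinarith [sq_nonneg e, mul_nonneg hy0 (sq_nonneg e)]

theorem mv_ne {e L : ℝ} (he : 0 < e) {q : Pt × Pt} (hq : Base e L q) {j : ℕ} (hj : okj q j)
    (ht : |(U^[j] q.1).2.2| < V e) : (TU^[j] q).2.2.2 ≠ 0 := by
  intro h
  have h1 := ((MV_r he hq ht).1 hj).1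
  unfold MVr at h1
  rw [h, mul_zero, zero_div] at h1
  exact lt_irrefl _ h1

/-- The bound used by all moves. -/
lemma MV_P {e L : ℝ} (he : 0 < e) {q : Pt × Pt} (hq : Base e L q) {j : ℕ} (hj : okj q j)
    (ht : (U^[j] q.1).2.2 ^ 2 ≤ 1 + e ^ 2 / 2) :
    max L (q.2.2.1 ^ 2 / 4) * (1 - q.1.2.1 ^ 2) ≤ MVr q j * q.2.2.1 ^ 2 := by
  have htV := MV_lt_V he ht
  obtain ⟨h1, h2, h3⟩ := (MV_r he hq htV).1 hj
  have h3 := h3 ht
  have hb := MV_b hq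
  have hv : 0 < q.2.2.1 ^ 2 := by have := hq.vy; positivity
  rcases max_cases L (q.2.2.1 ^ 2 / 4) with ⟨h, -⟩ | ⟨h, -⟩
  · rw [h]
    have h4 := MV_L he hq
    have h5 := mul_le_mul_of_nonneg_right h2 hv.le
    linarith
  · rw [h]
    have h5 := mul_le_mul_of_nonneg_right h3 hv.le
    linarith

lemma MV_abs_eta {e L : ℝ} (he : 0 < e) {q : Pt × Pt} (hq : Base e L q) {j : ℕ} (hj : okj q j)
    (ht : (U^[j] q.1).2.2 ^ 2 ≤ 1 + e ^ 2 / 2) :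
    (1 - q.1.2.1 ^ 2) * |(TU^[j] q).2.2.2| = MVr q j * |D (U^[j] q.1)| * |q.2.2.1| := by
  have htV := MV_lt_V he ht
  obtain ⟨h1, -, -⟩ := (MV_r he hq htV).1 hj
  have h := congrArg abs (MV_eta he hq htV)
  rwa [abs_mul, abs_mul, abs_mul, abs_of_pos (MV_b hq), abs_of_pos h1] at h

/-- Fields `g` and `p` of the new base. -/
lemma MV_gp {e L : ℝ} (he : 0 < e) {q : Pt × Pt} (hq : Base e L q) {j : ℕ} (hj : okj q j)
    (ht : |(U^[j] q.1).2.2| < 1) :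
    e ^ 2 / 8 * |q.2.2.1| ≤ |D (U^[j] q.1)| * |(TU^[j] q).2.2.2| ∧
    max L (q.2.2.1 ^ 2 / 4) * |D (U^[j] q.1)| ≤ |(TU^[j] q).2.2.2 * q.2.2.1| := by
  have ht1 := (sq_lt_one_iff_abs_lt_one _).2 ht
  have he2 : 0 < e ^ 2 := by positivity
  have ht2 : (U^[j] q.1).2.2 ^ 2 ≤ 1 + e ^ 2 / 2 := by linarith
  have htV := MV_lt_V he ht2
  have hb := MV_b hq
  obtain ⟨h1, h2, h3⟩ := (MV_r he hq htV).1 hj
  have h3 := h3 ht2
  have heta := MV_abs_eta he hq hj ht2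
  have hD := MV_Dsq_ge hq.tan.1 hq.y_lt ht2
  have hv : 0 < |q.2.2.1| := abs_pos.mpr hq.vy
  have hP := MV_P he hq hj ht2
  have hDa : |D (U^[j] q.1)| ^ 2 = D (U^[j] q.1) ^ 2 := sq_abs _
  refine ⟨?_, ?_⟩
  · have h4 : (1 - q.1.2.1 ^ 2) * (|D (U^[j] q.1)| * |(TU^[j] q).2.2.2|)
        = MVr q j * (D (U^[j] q.1) ^ 2 * |q.2.2.1|) := by
      rw [← hDa]
      linear_combination |D (U^[j] q.1)| * heta
    have h5 : (1 - q.1.2.1 ^ 2) / 4 * (e ^ 2 / 2 * |q.2.2.1|)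
        ≤ MVr q j * (D (U^[j] q.1) ^ 2 * |q.2.2.1|) :=
      mul_le_mul h3 (mul_le_mul_of_nonneg_right hD hv.le) (by positivity) h1.le
    have h6 : (1 - q.1.2.1 ^ 2) * (e ^ 2 / 8 * |q.2.2.1|)
        ≤ (1 - q.1.2.1 ^ 2) * (|D (U^[j] q.1)| * |(TU^[j] q).2.2.2|) := by
      rw [h4]; linarith
    exact le_of_mul_le_mul_left h6 hb
  · rw [abs_mul]
    have h4 : (1 - q.1.2.1 ^ 2) * (|(TU^[j] q).2.2.2| * |q.2.2.1|)
        = (MVr q j * q.2.2.1 ^ 2) * |D (U^[j] q.1)| := by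
      rw [← sq_abs q.2.2.1]
      linear_combination |q.2.2.1| * heta
    have h5 := mul_le_mul_of_nonneg_right hP (abs_nonneg (D (U^[j] q.1)))
    have h6 : (1 - q.1.2.1 ^ 2) * (max L (q.2.2.1 ^ 2 / 4) * |D (U^[j] q.1)|)
        ≤ (1 - q.1.2.1 ^ 2) * (|(TU^[j] q).2.2.2| * |q.2.2.1|) := by
      rw [h4]; linarith
    exact le_of_mul_le_mul_left h6 hb

theorem mvE {e L : ℝ} (he : 0 < e) {q : Pt × Pt} (hq : Base e L q) {j : ℕ} (hj : okj q j)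
    (ht : |(U^[j] q.1).2.2| < 1) :
    Base e (max L (q.2.2.1 ^ 2 / 4)) (TP (TU^[j] q)) ∧
      0 ≤ (TP (TU^[j] q)).2.2.2 * (TP (TU^[j] q)).2.2.1 * D (TP (TU^[j] q)).1 := by
  have htV : |(U^[j] q.1).2.2| < V e := lt_trans ht (one_lt_V he)
  obtain ⟨hg, hp⟩ := MV_gp he hq hj ht
  obtain ⟨h1, -, -⟩ := (MV_r he hq htV).1 hj
  obtain ⟨-, hDj, -⟩ := MV_core he hq htV
  have hb := MV_b hq
  have e1 : (TP (TU^[j] q)).1 = P (U^[j] q.1) := by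
    show P (TU^[j] q).1 = _
    rw [TU_iter_fst]
  have e2 : (TP (TU^[j] q)).2.2.2 = q.2.2.1 := TU_iter_vy j q
  have e3 : (TP (TU^[j] q)).2.2.1 = (TU^[j] q).2.2.2 := rfl
  have e4 : D (TP (TU^[j] q)).1 = D (U^[j] q.1) := by rw [e1, D_P]
  have e5 : (TP (TU^[j] q)).1.2.1 = (U^[j] q.1).2.2 := by rw [e1]; rfl
  have e6 : (TP (TU^[j] q)).1.2.2 = q.1.2.1 := by rw [e1]; exact U_iter_y q.1 j
  have hr : 0 ≤ (TP (TU^[j] q)).2.2.2 * (TP (TU^[j] q)).2.2.1 * D (TP (TU^[j] q)).1 := by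
    rw [e2, e3, e4]
    have h2 := MV_eta he hq htV
    have h3 : (1 - q.1.2.1 ^ 2) * (q.2.2.1 * (TU^[j] q).2.2.2 * D (U^[j] q.1))
        = MVr q j * (D (U^[j] q.1) * q.2.2.1) ^ 2 := by
      linear_combination (q.2.2.1 * D (U^[j] q.1)) * h2
    have h4 : 0 ≤ (1 - q.1.2.1 ^ 2) * (q.2.2.1 * (TU^[j] q).2.2.2 * D (U^[j] q.1)) := by
      rw [h3]; positivity
    exact nonneg_of_mul_nonneg_right h4 hb
  refine ⟨⟨Tan_TP (Tan_TU_iter hq.tan j), ?_, ?_, ?_, Or.inl hr, ?_, ?_⟩, hr⟩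
  · rw [e5]; exact ht
  · rw [e6]; exact hq.y_lt
  · rw [e3]; exact mv_ne he hq hj htV
  · rw [e2, e3, e4]; exact hg
  · rw [e2, e3, e4]; exact hp

theorem mvM {e L : ℝ} (he : 0 < e) {q : Pt × Pt} (hq : Base e L q) {j : ℕ} (hj : 1 ≤ j)
    (hc : 1 ≤ |(U^[j] q.1).2.2|) (ht : |(U^[j + 1] q.1).2.2| < 1) :
    Base e (max L (q.2.2.1 ^ 2 / 4)) (TRh (TU^[j] q)) := by
  have htV : |(U^[j + 1] q.1).2.2| < V e := lt_trans ht (one_lt_V he)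
  obtain ⟨hr1, hok⟩ := (MV_r he hq htV).2 j (by omega) (by omega) hc
  obtain ⟨hg, hp⟩ := MV_gp he hq hok ht
  have hb := MV_b hq
  have hb1 := MV_b_le q
  have e1 : (TRh (TU^[j] q)).1 = Rh (U^[j] q.1) := by
    show Rh (TU^[j] q).1 = _
    rw [TU_iter_fst]
  have e2 : (TRh (TU^[j] q)).2.2.2 = q.2.2.1 := TU_iter_vy j q
  have e3 : (TRh (TU^[j] q)).2.2.1 = (TU^[j + 1] q).2.2.2 := TU_iter_vx j q
  have e5 : (TRh (TU^[j] q)).1.2.1 = (U^[j + 1] q.1).2.2 := by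
    rw [e1]; exact U_iter_x q.1 j
  have e6 : (TRh (TU^[j] q)).1.2.2 = q.1.2.1 := by rw [e1]; exact U_iter_y q.1 j
  have e7 : (TRh (TU^[j] q)).1.1 = (U^[j] q.1).2.2 := by rw [e1]; rfl
  have e4 : D (TRh (TU^[j] q)).1 = - D (U^[j + 1] q.1) := by
    rw [MV_D_succ]
    unfold D
    rw [e5, e6, e7]
    ring
  refine ⟨Tan_TRh (Tan_TU_iter hq.tan j), ?_, ?_, ?_, Or.inr ⟨?_, ?_⟩, ?_, ?_⟩
  · rw [e5]; exact ht
  · rw [e6]; exact hq.y_lt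
  · rw [e3]; exact mv_ne he hq hok htV
  · rw [e2, e3, e4, e5]
    have h2 := MV_eta he hq htV
    have hD := MV_D_sq hq.tan.1 (j + 1)
    set η := (TU^[j + 1] q).2.2.2 with hη
    set Dj := D (U^[j + 1] q.1) with hDj
    set t := (U^[j + 1] q.1).2.2 with htt
    have ht1 := (sq_lt_one_iff_abs_lt_one _).2 ht
    have hr0 : 0 < MVr q (j + 1) := by linarith
    have h3 : MVr q (j + 1) * (q.2.2.1 * η * Dj) = (1 - q.1.2.1 ^ 2) * η ^ 2 := by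
      linear_combination (-η) * h2
    have h4 : (1 - t ^ 2) * (1 - q.1.2.1 ^ 2) ≤ MVr q (j + 1) * Dj ^ 2 := by
      have h5 : (1 - t ^ 2) * (1 - q.1.2.1 ^ 2) ≤ Dj ^ 2 := by
        rw [hD]; nlinarith [sq_nonneg e]
      have h6 : 1 * Dj ^ 2 ≤ MVr q (j + 1) * Dj ^ 2 :=
        mul_le_mul_of_nonneg_right hr1 (sq_nonneg _)
      linarith
    have h7 : MVr q (j + 1) * ((1 - t ^ 2) * (q.2.2.1 * η * Dj))
        ≤ MVr q (j + 1) * (η ^ 2 * Dj ^ 2) := by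
      have h8 := mul_le_mul_of_nonneg_right h4 (sq_nonneg η)
      have h9 : MVr q (j + 1) * ((1 - t ^ 2) * (q.2.2.1 * η * Dj))
          = (1 - t ^ 2) * (1 - q.1.2.1 ^ 2) * η ^ 2 := by
        linear_combination (1 - t ^ 2) * h3
      rw [h9]; linarith
    have h10 := le_of_mul_le_mul_left h7 hr0
    nlinarith
  · rw [e7]; exact hc
  · rw [e2, e3, e4, abs_neg]; exact hg
  · rw [e2, e3, e4, abs_neg]; exact hp

theorem mv_fin {e L : ℝ} (he : 0 < e) {q : Pt × Pt} (hq : Base e L q) {j : ℕ} (hj : okj q j)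
    (ht : (U^[j] q.1).2.2 ^ 2 ≤ 1 + e ^ 2 / 2) :
    e ^ 2 / 8 * max L (q.2.2.1 ^ 2 / 4) ≤ (TU^[j] q).2.2.2 ^ 2 := by
  have htV := MV_lt_V he ht
  obtain ⟨h1, -, h3⟩ := (MV_r he hq htV).1 hj
  have h3 := h3 ht
  have hb := MV_b hq
  have h2 := MV_eta he hq htV
  have hD := MV_Dsq_ge hq.tan.1 hq.y_lt ht
  have hP := MV_P he hq hj ht
  have hv : 0 < q.2.2.1 ^ 2 := by have := hq.vy; positivity
  have hM : 0 < max L (q.2.2.1 ^ 2 / 4) := lt_of_lt_of_le (by positivity) (le_max_right _ _)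
  have h4 : (1 - q.1.2.1 ^ 2) ^ 2 * (TU^[j] q).2.2.2 ^ 2
      = (MVr q j * q.2.2.1 ^ 2) * (MVr q j * D (U^[j] q.1) ^ 2) := by
    rw [← mul_pow, h2]; ring
  have h5 : (1 - q.1.2.1 ^ 2) / 4 * (e ^ 2 / 2) ≤ MVr q j * D (U^[j] q.1) ^ 2 :=
    mul_le_mul h3 hD (by positivity) h1.le
  have h6 : (max L (q.2.2.1 ^ 2 / 4) * (1 - q.1.2.1 ^ 2)) * ((1 - q.1.2.1 ^ 2) / 4 * (e ^ 2 / 2))
      ≤ (MVr q j * q.2.2.1 ^ 2) * (MVr q j * D (U^[j] q.1) ^ 2) :=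
    mul_le_mul hP h5 (by positivity) (by positivity)
  rw [← h4] at h6
  have h7 : (1 - q.1.2.1 ^ 2) ^ 2 * (e ^ 2 / 8 * max L (q.2.2.1 ^ 2 / 4))
      ≤ (1 - q.1.2.1 ^ 2) ^ 2 * (TU^[j] q).2.2.2 ^ 2 := by
    linarith
  exact le_of_mul_le_mul_left h7 (by positivity)

theorem mv_rim1 {e L : ℝ} (he : 0 < e) {q : Pt × Pt} (hq : Base e L q) {i j : ℕ} (hi : 0 < i)
    (hij : i < j) (hc : 1 ≤ |(U^[i] q.1).2.2|) (ht : (U^[j] q.1).2.2 ^ 2 ≤ 1 + e ^ 2 / 2) :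
    e ^ 2 / 2 * q.2.2.1 ^ 2 ≤ (1 - q.1.2.1 ^ 2) ^ 2 * (TU^[j] q).2.2.2 ^ 2 := by
  have htV := MV_lt_V he ht
  obtain ⟨hr1, -⟩ := (MV_r he hq htV).2 i hi hij hc
  have h2 := MV_eta he hq htV
  have hD := MV_Dsq_ge hq.tan.1 hq.y_lt ht
  rw [← mul_pow, h2]
  have h3 : 1 ≤ MVr q j ^ 2 := by nlinarith
  have h4 : 1 * (e ^ 2 / 2) ≤ MVr q j ^ 2 * D (U^[j] q.1) ^ 2 :=
    mul_le_mul h3 hD (by positivity) (by positivity)
  have h5 := mul_le_mul_of_nonneg_right h4 (sq_nonneg q.2.2.1)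
  nlinarith

theorem mv_rim2 {e L : ℝ} (he : 0 < e) {q : Pt × Pt} (hq : Base e L q) {i j : ℕ} (hi : 0 < i)
    (hij : i < j) (hc : 1 ≤ |(U^[i] q.1).2.2|) (ht : |(U^[j] q.1).2.2| < 1) :
    (1 + e ^ 2) * (q.2.2.1 ^ 2 * (1 - (U^[j] q.1).2.2 ^ 2))
      ≤ (1 - q.1.2.1 ^ 2) * (TU^[j] q).2.2.2 ^ 2 := by
  have htV : |(U^[j] q.1).2.2| < V e := lt_trans ht (one_lt_V he)
  obtain ⟨hr1, -⟩ := (MV_r he hq htV).2 i hi hij hc
  have h2 := MV_eta he hq htV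
  have hb := MV_b hq
  have hb1 := MV_b_le q
  have hD := MV_D_sq hq.tan.1 j
  have ht1 := (sq_lt_one_iff_abs_lt_one _).2 ht
  set t := (U^[j] q.1).2.2 with htt
  set b := 1 - q.1.2.1 ^ 2 with hbb
  have hs : 0 < 1 - t ^ 2 := by linarith
  have hs1 : 1 - t ^ 2 ≤ 1 := by nlinarith [sq_nonneg t]
  have h3 : 1 ≤ MVr q j ^ 2 := by nlinarith
  have h4 : (1 + e ^ 2) * (b * (1 - t ^ 2)) ≤ D (U^[j] q.1) ^ 2 := by
    rw [hD]
    have h5 : b * (1 - t ^ 2) ≤ 1 * 1 := mul_le_mul hb1 hs1 hs.le (by norm_num)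
    nlinarith [mul_le_mul_of_nonneg_left h5 (sq_nonneg e)]
  have h6 : 1 * ((1 + e ^ 2) * (b * (1 - t ^ 2))) ≤ MVr q j ^ 2 * D (U^[j] q.1) ^ 2 :=
    mul_le_mul h3 h4 (by positivity) (by positivity)
  have h7 := mul_le_mul_of_nonneg_right h6 (sq_nonneg q.2.2.1)
  have h8 : b * ((1 + e ^ 2) * (q.2.2.1 ^ 2 * (1 - t ^ 2)))
      ≤ b * (b * (TU^[j] q).2.2.2 ^ 2) := by
    have h9 : b * (b * (TU^[j] q).2.2.2 ^ 2) = MVr q j ^ 2 * D (U^[j] q.1) ^ 2 * q.2.2.1 ^ 2 := by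
      have : b * (b * (TU^[j] q).2.2.2 ^ 2) = (b * (TU^[j] q).2.2.2) ^ 2 := by ring
      rw [this, h2]; ring
    rw [h9]
    linarith
  exact le_of_mul_le_mul_left h8 hb

/-- Comparison with the value of modulus `≥ 1` just before. -/
theorem mv_prev {e : ℝ} (he : 0 < e) : ∃ C : ℝ, 0 < C ∧ ∀ (L : ℝ) (q : Pt × Pt), Base e L q →
    ∀ j : ℕ, 1 ≤ j → 1 ≤ |(U^[j] q.1).2.2| → (U^[j + 1] q.1).2.2 ^ 2 ≤ 1 + e ^ 2 / 2 →
      (TU^[j] q).2.2.2 ^ 2 ≤ C * (TU^[j + 1] q).2.2.2 ^ 2 := by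
  have he2 : 0 < e ^ 2 := by positivity
  refine ⟨2 / e ^ 2 * (2 * e ^ 2 + 2 * (2 + 2 * ((4 + 3 * e ^ 2) * (1 + e ^ 2 / 2))) * (2 / e ^ 2)),
    by positivity, ?_⟩
  intro L q hq j hj hc ht
  have hb := MV_b hq
  have hb1 := MV_b_le q
  have hrim := mv_rim1 he hq (by omega : 0 < j) (by omega : j < j + 1) hc ht
  have hDj := MV_D_sq hq.tan.1 j
  have hDj1 := MV_D_sq hq.tan.1 (j + 1)
  have hDge := MV_Dsq_ge hq.tan.1 hq.y_lt ht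
  have hD1 := MV_D_succ q.1 j
  have hD0 := MV_D q.1 j
  have htan := (Tan_TU_iter hq.tan j).2
  rw [TU_iter_fst] at htan
  unfold dFV at htan
  rw [TU_iter_vy, TU_iter_vx, U_iter_x, U_iter_y] at htan
  set t := (U^[j] q.1).2.2 with htt
  set t' := (U^[j + 1] q.1).2.2 with htt'
  set η := (TU^[j] q).2.2.2 with hη
  set η' := (TU^[j + 1] q).2.2.2 with hη'
  set y := q.1.2.1 with hy
  set w := q.2.2.1 with hw
  have hrel : D (U^[j + 1] q.1) * η = D (U^[j] q.1) * η' - (y - t * t') * w := by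
    rw [hD1, hD0]
    linear_combination (1 / 2) * htan
  have hy1 : y ^ 2 ≤ 1 := by linarith
  have ht1 : 1 ≤ t ^ 2 := by
    have := (one_le_sq_iff_one_le_abs t).2 hc
    exact this
  have h1 : D (U^[j] q.1) ^ 2 ≤ e ^ 2 := by
    rw [hDj]
    have : (1 - y ^ 2) * (1 - t ^ 2) ≤ 0 :=
      mul_nonpos_of_nonneg_of_nonpos (by linarith) (by linarith)
    linarith
  have h2 : D (U^[j + 1] q.1) ^ 2 ≤ 1 + e ^ 2 := by
    rw [hDj1]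
    have h11 : (1 - y ^ 2) * (1 - t' ^ 2) ≤ (1 - y ^ 2) * 1 :=
      mul_le_mul_of_nonneg_left (by linarith [sq_nonneg t']) (by linarith)
    linarith
  have h3 : t ^ 2 ≤ 4 + 3 * e ^ 2 := by
    have : t = y * t' + D (U^[j + 1] q.1) := by rw [hD1]; ring
    have h4 : t ^ 2 ≤ 2 * (y * t') ^ 2 + 2 * D (U^[j + 1] q.1) ^ 2 := by
      have h := sq_nonneg (y * t' - D (U^[j + 1] q.1))
      calc t ^ 2 = (y * t' + D (U^[j + 1] q.1)) ^ 2 := by rw [← this]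
        _ ≤ _ := by linarith
    have h5 : (y * t') ^ 2 ≤ 1 * (1 + e ^ 2 / 2) := by
      rw [mul_pow]
      exact mul_le_mul hy1 ht (sq_nonneg _) (by norm_num)
    linarith
  have h4 : (y - t * t') ^ 2 ≤ 2 + 2 * ((4 + 3 * e ^ 2) * (1 + e ^ 2 / 2)) := by
    have h5 : (t * t') ^ 2 ≤ (4 + 3 * e ^ 2) * (1 + e ^ 2 / 2) := by
      rw [mul_pow]
      exact mul_le_mul h3 ht (sq_nonneg _) (by positivity)
    have h6 := sq_nonneg (y + t * t')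
    have h7 : (y - t * t') ^ 2 ≤ 2 * y ^ 2 + 2 * (t * t') ^ 2 := by linarith
    linarith
  have h5 : w ^ 2 ≤ 2 / e ^ 2 * η' ^ 2 := by
    have h6 : e ^ 2 / 2 * w ^ 2 ≤ η' ^ 2 := by
      have h7 : (1 - y ^ 2) ^ 2 * η' ^ 2 ≤ 1 * η' ^ 2 :=
        mul_le_mul_of_nonneg_right (pow_le_one₀ hb.le hb1) (sq_nonneg _)
      linarith
    rw [div_mul_eq_mul_div, le_div_iff₀ he2]
    linarith
  have h6 : D (U^[j + 1] q.1) ^ 2 * η ^ 2
      ≤ 2 * (e ^ 2 * η' ^ 2) + 2 * ((2 + 2 * ((4 + 3 * e ^ 2) * (1 + e ^ 2 / 2)))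
        * (2 / e ^ 2 * η' ^ 2)) := by
    have h7 : D (U^[j + 1] q.1) ^ 2 * η ^ 2 = (D (U^[j] q.1) * η' - (y - t * t') * w) ^ 2 := by
      rw [← hrel]; ring
    have h8 : (D (U^[j] q.1) * η' - (y - t * t') * w) ^ 2
        ≤ 2 * (D (U^[j] q.1) ^ 2 * η' ^ 2) + 2 * ((y - t * t') ^ 2 * w ^ 2) := by
      have h := sq_nonneg (D (U^[j] q.1) * η' + (y - t * t') * w)
      have h' : (D (U^[j] q.1) * η' - (y - t * t') * w) ^ 2
        + (D (U^[j] q.1) * η' + (y - t * t') * w) ^ 2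
        = 2 * (D (U^[j] q.1) ^ 2 * η' ^ 2) + 2 * ((y - t * t') ^ 2 * w ^ 2) := by ring
      linarith
    have h9 : D (U^[j] q.1) ^ 2 * η' ^ 2 ≤ e ^ 2 * η' ^ 2 :=
      mul_le_mul_of_nonneg_right h1 (sq_nonneg _)
    have h10 : (y - t * t') ^ 2 * w ^ 2 ≤ (2 + 2 * ((4 + 3 * e ^ 2) * (1 + e ^ 2 / 2)))
        * (2 / e ^ 2 * η' ^ 2) := mul_le_mul h4 h5 (sq_nonneg _) (by positivity)
    rw [h7]; linarith
  have h7 : e ^ 2 / 2 * η ^ 2 ≤ D (U^[j + 1] q.1) ^ 2 * η ^ 2 :=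
    mul_le_mul_of_nonneg_right hDge (sq_nonneg _)
  have h8 : η ^ 2 = 2 / e ^ 2 * (e ^ 2 / 2 * η ^ 2) := by field_simp
  rw [h8]
  have h9 : 0 ≤ 2 / e ^ 2 := by positivity
  calc 2 / e ^ 2 * (e ^ 2 / 2 * η ^ 2)
      ≤ 2 / e ^ 2 * (2 * (e ^ 2 * η' ^ 2) + 2 * ((2 + 2 * ((4 + 3 * e ^ 2) * (1 + e ^ 2 / 2)))
        * (2 / e ^ 2 * η' ^ 2))) := mul_le_mul_of_nonneg_left (le_trans h7 h6) h9
    _ = _ := by ring

end TM
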