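import Pool.Agent.Helper55.TM.Links

/-!
# MP_fc8395_an : saturation (module SA)
-/

set_option autoImplicit false

open scoped ContDiff Topology
open Filter Set

namespace TM

lemma SA_right {x1 x M β : ℝ} {f f' : ℝ → ℝ} (h01 : x1 ≤ x) (hM : 0 ≤ M)
    (hf : ∀ y ∈ Icc x1 x, HasDerivAt f (f' y) y)
    (hb : ∀ y ∈ Icc x1 x, |f y| ≤ β → |f' y| ≤ M) (h : |f x1| + M * (x - x1) < β) :
    |f x| ≤ β := by
  rcases h01.eq_or_lt with h1 | h1
  · rw [← h1] at h ⊢
    simp only [sub_self, mul_zero, add_zero] at h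
    exact h.le
  have hx : 0 < x - x1 := by linarith
  set M' : ℝ := (β - |f x1|) / (x - x1) with hM'
  have hMM : M < M' := by
    rw [hM', lt_div_iff₀ hx]; linarith
  have hβ : |f x1| + M' * (x - x1) = β := by
    rw [hM']; field_simp; ring
  have hM0 : 0 ≤ M' := hM.trans hMM.le
  have key := image_norm_le_of_norm_deriv_right_lt_deriv_boundary (f := f) (f' := f') (a := x1)
    (b := x) (B := fun y => |f x1| + M' * (y - x1)) (B' := fun _ => M')
    (fun y hy => (hf y hy).continuousAt.continuousWithinAt)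
    (fun y hy => (hf y ⟨hy.1, hy.2.le⟩).hasDerivWithinAt) (by simp)
    (fun y => by
      have := (((hasDerivAt_id y).sub_const x1).const_mul M').const_add (|f x1|)
      simpa using this)
    (fun y hy hey => by
      have h2 : |f y| ≤ β := by
        have h3 : |f y| = |f x1| + M' * (y - x1) := hey
        rw [h3, ← hβ]
        have : M' * (y - x1) ≤ M' * (x - x1) :=
          mul_le_mul_of_nonneg_left (by linarith [hy.2]) hM0
        linarith
      exact lt_of_le_of_lt (hb y ⟨hy.1, hy.2.le⟩ h2) hMM)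
  have h4 := key (x := x) ⟨h01, le_rfl⟩
  rw [← hβ]
  exact h4

lemma SA_barrier {a b x1 M β : ℝ} {f f' : ℝ → ℝ} (hM : 0 ≤ M) (hx1 : x1 ∈ Ioo a b)
    (hf : ∀ y ∈ Ioo a b, HasDerivAt f (f' y) y)
    (hb : ∀ y ∈ Ioo a b, |f y| ≤ β → |f' y| ≤ M) {x : ℝ} (hx : x ∈ Ioo a b)
    (h : |f x1| + M * |x - x1| < β) : |f x| ≤ β := by
  rcases le_total x1 x with h1 | h1
  · rw [abs_of_nonneg (show (0 : ℝ) ≤ x - x1 by linarith)] at h
    exact SA_right h1 hM (fun y hy => hf y ⟨by linarith [hy.1, hx1.1], by linarith [hy.2, hx.2]⟩)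
      (fun y hy => hb y ⟨by linarith [hy.1, hx1.1], by linarith [hy.2, hx.2]⟩) h
  · rw [abs_of_nonpos (show x - x1 ≤ (0 : ℝ) by linarith)] at h
    have key := SA_right (x1 := -x1) (x := -x) (f := fun y => f (-y)) (f' := fun y => -f' (-y))
      (M := M) (β := β) (by linarith) hM
      (fun y hy => by
        have h2 : -y ∈ Ioo a b := ⟨by linarith [hy.2, hx.1], by linarith [hy.1, hx1.2]⟩
        have h3 := (hf (-y) h2).comp y (hasDerivAt_neg y)
        have h4 : f' (-y) * -1 = -f' (-y) := by ring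
        rw [h4] at h3
        exact h3)
      (fun y hy h5 => by
        rw [abs_neg]
        exact hb (-y) ⟨by linarith [hy.2, hx.1], by linarith [hy.1, hx1.2]⟩ h5)
      (by
        simp only [neg_neg]
        have : -x - -x1 = -(x - x1) := by ring
        rw [this]; exact h)
    simpa using key

lemma SA_hasDerivAt {G : ℝ × ℝ → ℝ} {h : ℝ → ℝ} {x m : ℝ} (hG : DifferentiableAt ℝ G (x, h x))
    (hh : HasDerivAt h m x) :
    HasDerivAt (fun x => G (x, h x)) (dz G (x, h x) + m * dt G (x, h x)) x := by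
  have h1 : HasDerivAt (fun t : ℝ => ((t, h t) : ℝ × ℝ)) ((1 : ℝ), m) x :=
    (hasDerivAt_id x).prodMk hh
  have h2 := hG.hasFDerivAt.comp_hasDerivAt x h1
  refine h2.congr_deriv ?_
  have h3 : (((1 : ℝ), m) : ℝ × ℝ) = (1, 0) + m • (0, 1) := by
    ext <;> simp
  rw [h3, map_add, map_smul]
  rfl

/-- One level function along a leaf. -/
lemma SA_step {e : ℝ} (he : 0 < e) {k : ℕ → ℕ} (hk : ∀ i, 1 ≤ k i) {m : ℕ}
    {O : Set (ℝ × ℝ)} (hOD : O ⊆ Dom) {a1 r : ℝ} (ha1V : a1 < V e) {μ : ℝ × ℝ → ℝ}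
    (hclose : ∀ q ∈ O, |F e k m q| ≤ a1 → |dt (F e k m) q| * |μ q - slope (F e k m) q| ≤ r)
    {a b : ℝ} {h : ℝ → ℝ} (hh : ∀ x ∈ Ioo a b, (x, h x) ∈ O ∧ HasDerivAt h (μ (x, h x)) x)
    {x1 : ℝ} (hx1 : x1 ∈ Ioo a b) {x : ℝ} (hx : x ∈ Ioo a b)
    (hb : |F e k m (x1, h x1)| + |r| * |x - x1| < a1) : |F e k m (x, h x)| ≤ a1 := by
  generalize hG : F e k m = G at hclose hb ⊢
  have hdiff : ∀ q ∈ O, DifferentiableAt ℝ G q := by
    intro q hq
    rw [← hG]
    exact (contDiffAt_F (hOD hq)).differentiableAt (by simp)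
  have hne : ∀ q ∈ O, |G q| ≤ a1 → dt G q ≠ 0 := by
    intro q hq hq1
    rw [← hG] at hq1 ⊢
    exact F_ne he hk (hOD hq) (lt_of_le_of_lt hq1 ha1V)
  refine SA_barrier (f := fun y => G (y, h y))
    (f' := fun y => dz G (y, h y) + μ (y, h y) * dt G (y, h y)) (abs_nonneg r) hx1
    (fun y hy => SA_hasDerivAt (hdiff _ (hh y hy).1) (hh y hy).2) ?_ hx hb
  intro y hy hFy
  have hO := (hh y hy).1
  have hn := hne _ hO hFy
  have h1 : dz G (y, h y) + μ (y, h y) * dt G (y, h y)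
      = dt G (y, h y) * (μ (y, h y) - slope G (y, h y)) := by
    unfold slope
    field_simp
    ring
  show |dz G (y, h y) + μ (y, h y) * dt G (y, h y)| ≤ |r|
  rw [h1, abs_mul]
  exact (hclose _ hO hFy).trans (le_abs_self _)

theorem saturation {e : ℝ} (he : 0 < e) {k : ℕ → ℕ} (hk : ∀ i, 1 ≤ k i) {N0 : ℕ}
    {O : Set (ℝ × ℝ)} (hOD : O ⊆ Dom) {a1 : ℝ} (ha1 : 1 < a1) (ha1V : a1 < V e)
    {μ : ℝ × ℝ → ℝ} {rate : ℕ → ℝ} (hrate : Tendsto rate atTop (𝓝 0))
    (hclose : ∀ N, N0 ≤ N → ∀ q ∈ O, |F e k N q| ≤ a1 →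
      |dt (F e k N) q| * |μ q - slope (F e k N) q| ≤ rate N)
    {a b : ℝ} {h : ℝ → ℝ} (hh : ∀ x ∈ Ioo a b, (x, h x) ∈ O ∧ HasDerivAt h (μ (x, h x)) x)
    {x1 : ℝ} (hx1 : x1 ∈ Ioo a b) (hW : Psi e x1 (h x1) ∈ W e k) :
    ∀ x ∈ Ioo a b, Psi e x (h x) ∈ W e k := by
  intro x hx
  have hr : Tendsto (fun N => |rate N| * |x - x1|) atTop (𝓝 0) := by
    have h1 : Tendsto (fun N => |rate N|) atTop (𝓝 0) := by simpa using hrate.abs
    simpa using h1.mul_const |x - x1|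
  have hev : ∀ᶠ N in atTop, |rate N| * |x - x1| < a1 - 1 :=
    hr.eventually_lt_const (by linarith)
  obtain ⟨N1, hN1⟩ := eventually_atTop.1 hev
  have key : ∀ n : ℕ, ∃ m, n ≤ m ∧ |yv k m (Psi e x (h x))| < V e := by
    intro n
    obtain ⟨m, hm, hm1⟩ := W_inf he hk hW (max n (max N0 N1))
    have hmn : n ≤ m := le_trans (le_max_left _ _) hm
    have hmN0 : N0 ≤ m := le_trans (le_trans (le_max_left _ _) (le_max_right _ _)) hm
    have hmN1 : N1 ≤ m := le_trans (le_trans (le_max_right _ _) (le_max_right _ _)) hm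
    have e1 : yv k m (Psi e x1 (h x1)) = F e k m (x1, h x1) := rfl
    have e2 : yv k m (Psi e x (h x)) = F e k m (x, h x) := rfl
    rw [e1] at hm1
    have h3 := hN1 m hmN1
    have h4 := SA_step he hk (m := m) hOD ha1V (r := rate m) (hclose m hmN0) hh hx1 hx
      (by linarith)
    refine ⟨m, hmn, ?_⟩
    rw [e2]
    exact lt_of_le_of_lt h4 ha1V
  have hmem : Psi e x (h x) ∈ Surf e := Psi_mem (q := (x, h x)) (hOD (hh x hx).1)
  exact W_of_inf he hk hmem key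

end TM
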